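import Pool.Agent.Q248.DF.Half

namespace Pool.Agent.Q248.DF

open Finset

/-- the assembly -/
theorem assembly (hInj : TaskInj) (hPrime : TaskPrime) (hCop : TaskCop) (hRes : TaskRes)
    (hFib : TaskFib) (hMem : TaskMem) (hCard : TaskCard) (hUnit : TaskUnit) (hDiff : TaskDiff)
    (hAvg : TaskAvg) (hGcd : TaskGcd) (hGcd1 : TaskGcd1) (hUnion : TaskUnion) (hCore : TaskCore)
    (ω p q a b : ℕ) (A C T : Finset (ZMod ω)) (hp : p.Prime) (hq : q.Prime) (hpq : p ≠ q)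
    (hω : 0 < ω) (hA : A.card = p ^ a * q ^ b) (h0 : 0 ∈ C) (hT : Til ⊤ A C) (hTA : T ⊆ A)
    (hTi : ∀ t ∈ T, ∀ t' ∈ T, t.val ≡ t'.val [MOD p ^ a * q ^ b] → t = t')
    (hTc : p ^ a * q ^ b < 2 * T.card) :
    ∀ x ∈ A, ∀ y ∈ A, x.val ≡ y.val [MOD p ^ a * q ^ b] → x = y := by
  have : NeZero ω := ⟨hω.ne'⟩
  classical
  have hnω : p ^ a * q ^ b ∣ ω := by
    have h1 := hT.2.2.2
    rw [AddSubgroup.card_top, Nat.card_zmod] at h1
    rw [← hA]; exact ⟨C.card, h1.symm⟩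
  obtain ⟨u, R₁, hR₁, hω₁⟩ := Nat.exists_eq_pow_mul_and_not_dvd hω.ne' p hp.ne_one
  have hR₁0 : R₁ ≠ 0 := by rintro rfl; exact hR₁ (dvd_zero _)
  obtain ⟨v, R, hRq, hω₂⟩ := Nat.exists_eq_pow_mul_and_not_dvd hR₁0 q hq.ne_one
  have hR0 : R ≠ 0 := by rintro rfl; exact hRq (dvd_zero _)
  have hRpos : 0 < R := Nat.pos_of_ne_zero hR0
  have hRp : ¬ p ∣ R := fun h => hR₁ (by rw [hω₂]; exact dvd_mul_of_dvd_right h _)
  have hf : ω = R * (p ^ u * q ^ v) := by rw [hω₁, hω₂]; ring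
  have hcp : Nat.Coprime (p ^ a) (R * q ^ v) := by
    apply Nat.Coprime.pow_left
    apply Nat.Coprime.mul_right
    · exact (hp.coprime_iff_not_dvd).2 hRp
    · exact Nat.Coprime.pow_right _ ((Nat.coprime_primes hp hq).2 hpq)
  have hcq : Nat.Coprime (q ^ b) (R * p ^ u) := by
    apply Nat.Coprime.pow_left
    apply Nat.Coprime.mul_right
    · exact (hq.coprime_iff_not_dvd).2 hRq
    · exact Nat.Coprime.pow_right _ ((Nat.coprime_primes hq hp).2 hpq.symm)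
  have ha : a ≤ u := by
    have h1 : p ^ a ∣ p ^ u * (R * q ^ v) := by
      have : p ^ u * (R * q ^ v) = ω := by rw [hf]; ring
      rw [this]; exact dvd_trans (Dvd.intro _ rfl) hnω
    exact (Nat.pow_dvd_pow_iff_le_right hp.one_lt).1 (hcp.dvd_of_dvd_mul_right h1)
  have hb : b ≤ v := by
    have h1 : q ^ b ∣ q ^ v * (R * p ^ u) := by
      have : q ^ v * (R * p ^ u) = ω := by rw [hf]; ring
      rw [this]; exact dvd_trans (Dvd.intro_left _ rfl) hnω
    exact (Nat.pow_dvd_pow_iff_le_right hq.one_lt).1 (hcq.dvd_of_dvd_mul_right h1)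
  have hPu : p ^ (u - a) * p ^ a = p ^ u := by rw [← pow_add]; congr 1; omega
  have hQv : q ^ (v - b) * q ^ b = q ^ v := by rw [← pow_add]; congr 1; omega
  have dR : R ∣ ω := ⟨_, hf⟩
  have dN : R * (p ^ a * q ^ b) ∣ ω := ⟨p ^ (u - a) * q ^ (v - b), by
    rw [hf, ← hPu, ← hQv]; ring⟩
  have cH : Nat.card (M ω R) = p ^ u * q ^ v := by
    rw [hCard ω R hω dR, hf, Nat.mul_div_cancel_left _ hRpos]
  have cN : Nat.card (M ω (R * (p ^ a * q ^ b))) = p ^ (u - a) * q ^ (v - b) := by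
    rw [hCard ω _ hω dN, hf, ← hPu, ← hQv]
    rw [show R * (p ^ (u - a) * p ^ a * (q ^ (v - b) * q ^ b)) =
      (R * (p ^ a * q ^ b)) * (p ^ (u - a) * q ^ (v - b)) by ring]
    exact Nat.mul_div_cancel_left _
      (Nat.mul_pos hRpos (Nat.mul_pos (pow_pos hp.pos _) (pow_pos hq.pos _)))
  have cHN : Nat.card (M ω R) = p ^ a * q ^ b * Nat.card (M ω (R * (p ^ a * q ^ b))) := by
    rw [cH, cN, ← hPu, ← hQv]; ring
  have hcopR : R.Coprime A.card := by
    rw [hA]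
    apply Nat.Coprime.mul_right
    · exact Nat.Coprime.pow_right _ ((hp.coprime_iff_not_dvd).2 hRp).symm
    · exact Nat.Coprime.pow_right _ ((hq.coprime_iff_not_dvd).2 hRq).symm
  obtain ⟨hT1, hc1⟩ := hCop hPrime hInj (ZMod ω) _ A C R hR0 hcopR hT
  set A₁ := A.image (fun x => R • x) with hA₁
  have hA₁R : ∀ x ∈ A₁, x ∈ M ω R := by
    intro x hx
    rw [hA₁, Finset.mem_image] at hx
    obtain ⟨z, _, rfl⟩ := hx
    rw [hMem ω R hω dR, val_smul_dvd hω dR]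
    exact Dvd.intro _ rfl
  set C₁ := C.filter (fun c => c ∈ M ω R) with hC₁
  have hT2 : Til (M ω R) A₁ C₁ :=
    hRes hInj (ZMod ω) ⊤ (M ω R) A₁ C C₁ hT1 le_top hA₁R (by intro c; rw [hC₁, Finset.mem_filter])
  have h0C₁ : (0 : ZMod ω) ∈ C₁ := by
    rw [hC₁, Finset.mem_filter]; exact ⟨h0, zero_mem _⟩
  have hA₁c : A₁.card = p ^ a * q ^ b := by rw [hc1, hA]
  -- transfer of congruences
  have tr : ∀ x y : ZMod ω, R • x - R • y ∈ M ω (R * (p ^ a * q ^ b)) ↔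
      x.val ≡ y.val [MOD p ^ a * q ^ b] := by
    intro x y
    rw [← smul_sub, smul_mem hMem hω hRpos dN, sub_modEq hω hnω hMem]
  set T₁ := T.image (fun x => R • x) with hT₁
  have hT₁A : T₁ ⊆ A₁ := Finset.image_subset_image hTA
  have hT₁i : ∀ t ∈ T₁, ∀ t' ∈ T₁, t - t' ∈ M ω (R * (p ^ a * q ^ b)) → t = t' := by
    intro t ht t' ht' h
    rw [hT₁, Finset.mem_image] at ht ht'
    obtain ⟨x, hx, rfl⟩ := ht
    obtain ⟨y, hy, rfl⟩ := ht'
    rw [hTi x hx y hy ((tr x y).1 h)]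
  have hT₁c : p ^ a * q ^ b < 2 * T₁.card := by
    rw [hT₁, Finset.card_image_of_injOn]
    · exact hTc
    · intro x hx y hy h
      simp only at h
      exact hTi x hx y hy ((tr x y).1 (by rw [h, sub_self]; exact zero_mem _))
  -- the differences of C₁
  have hdiff : ∀ c ∈ C₁, ∀ c' ∈ C₁, c - c' ∈ M ω (R * p ^ a) ∨ c - c' ∈ M ω (R * q ^ b) := by
    intro c hc c' hc'
    by_contra hcon
    push Not at hcon
    obtain ⟨hn1, hn2⟩ := hcon
    have dRp : R * p ^ a ∣ ω := dvd_trans (Nat.mul_dvd_mul_left R (Dvd.intro _ rfl)) dN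
    have dRq : R * q ^ b ∣ ω := dvd_trans (Nat.mul_dvd_mul_left R (Dvd.intro_left _ rfl)) dN
    have hyR : c - c' ∈ M ω R := sub_mem (hT2.2.1 c hc) (hT2.2.1 c' hc')
    obtain ⟨t, ht, t', ht', htt⟩ := hDiff (ZMod ω) (M ω R) (M ω (R * (p ^ a * q ^ b))) T₁
      (p ^ a * q ^ b) (M_le hMem hω (Dvd.intro _ rfl) dN) cHN (fun t ht => hA₁R t (hT₁A ht))
      hT₁i hT₁c (c - c') hyR
    have hxR : t - t' ∈ M ω R := sub_mem (hA₁R t (hT₁A ht)) (hA₁R t' (hT₁A ht'))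
    rw [sub_modEq hω dN hMem] at htt
    have hg := hGcd ω R p q a b u v hp hq hpq hω hf ha hb (t - t').val (c - c').val
      ((hMem ω R hω dR _).1 hxR) ((hMem ω R hω dR _).1 hyR) htt
      (fun h => hn1 ((hMem ω _ hω dRp _).2 h)) (fun h => hn2 ((hMem ω _ hω dRq _).2 h))
    obtain ⟨r, hr0, hrω, hr⟩ := hUnit ω hω (t - t') (c - c') hg
    have hrA : r.Coprime A₁.card := by
      rw [hA₁c]; exact hrω.coprime_dvd_right hnω
    obtain ⟨hT3, _⟩ := hCop hPrime hInj (ZMod ω) _ A₁ C₁ r hr0 hrA hT2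
    have := hInj (ZMod ω) _ _ _ hT3 (r • t) (Finset.mem_image_of_mem _ (hT₁A ht)) c' hc'
      (r • t') (Finset.mem_image_of_mem _ (hT₁A ht')) c hc (by
        rw [smul_sub] at hr
        have : r • t = r • t' + (c - c') := by rw [← hr]; abel
        rw [this]; abel)
    apply hn1
    rw [this.2, sub_self]; exact zero_mem _
  have hinj₁ : ∀ x ∈ A₁, ∀ y ∈ A₁, x - y ∈ M ω (R * (p ^ a * q ^ b)) → x = y := by
    rcases hUnion (ZMod ω) _ _ C₁ h0C₁ hdiff with h | h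
    · exact half hInj hPrime hCop hRes hFib hMem hCard hUnit hDiff hAvg hGcd1 hCore ω R p q a b u v
        A₁ C₁ T₁ hp hq hpq hω hf ha hb hA₁c h0C₁ hT2 h hT₁A hT₁i hT₁c
    · rw [mul_comm (p ^ a) (q ^ b)] at hT₁i hT₁c hA₁c ⊢
      exact half hInj hPrime hCop hRes hFib hMem hCard hUnit hDiff hAvg hGcd1 hCore ω R q p b a v u
        A₁ C₁ T₁ hq hp hpq.symm hω (by rw [hf]; ring) hb ha hA₁c h0C₁ hT2 h hT₁A hT₁i hT₁c
  intro x hx y hy hxy
  have h1 := hinj₁ (R • x) (Finset.mem_image_of_mem _ hx) (R • y) (Finset.mem_image_of_mem _ hy)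
    ((tr x y).2 hxy)
  have hio := Finset.injOn_of_card_image_eq hc1
  exact hio (Finset.mem_coe.2 hx) (Finset.mem_coe.2 hy) h1

/-- a number with at most two prime factors -/
theorem shape (n : ℕ) (hn : 0 < n) (h : n.primeFactors.card ≤ 2) :
    ∃ p q a b : ℕ, p.Prime ∧ q.Prime ∧ p ≠ q ∧ n = p ^ a * q ^ b := by
  have hprod := Nat.prod_factorization_pow_eq_self hn.ne'
  rw [Finsupp.prod, Nat.support_factorization] at hprod
  have hcase : n.primeFactors.card = 0 ∨ n.primeFactors.card = 1 ∨ n.primeFactors.card = 2 := by omega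
  rcases hcase with h0 | h1 | h2
  · rw [Finset.card_eq_zero] at h0
    rw [h0, Finset.prod_empty] at hprod
    exact ⟨2, 3, 0, 0, Nat.prime_two, Nat.prime_three, by norm_num, by rw [← hprod]; norm_num⟩
  · obtain ⟨p, hp⟩ := Finset.card_eq_one.1 h1
    rw [hp, Finset.prod_singleton] at hprod
    have hpp : p.Prime := Nat.prime_of_mem_primeFactors (by rw [hp]; exact Finset.mem_singleton_self _ : p ∈ n.primeFactors)
    by_cases h2 : p = 2
    · exact ⟨p, 3, n.factorization p, 0, hpp, Nat.prime_three, by omega, by rw [pow_zero, mul_one]; exact hprod.symm⟩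
    · exact ⟨p, 2, n.factorization p, 0, hpp, Nat.prime_two, h2, by rw [pow_zero, mul_one]; exact hprod.symm⟩
  · obtain ⟨p, q, hpq, hs⟩ := Finset.card_eq_two.1 h2
    rw [hs, Finset.prod_pair hpq] at hprod
    have hpp : p.Prime := Nat.prime_of_mem_primeFactors (by rw [hs]; exact Finset.mem_insert_self _ _ : p ∈ n.primeFactors)
    have hqp : q.Prime := Nat.prime_of_mem_primeFactors (by rw [hs]; simp : q ∈ n.primeFactors)
    exact ⟨p, q, _, _, hpp, hqp, hpq, hprod.symm⟩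

end Pool.Agent.Q248.DF
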