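import Pool.Agent.Q248.DF.Stmts

namespace Pool.Agent.Q248.DF

open Finset

section
variable {ω : ℕ}

theorem val_smul_dvd (hω : 0 < ω) {d : ℕ} (hd : d ∣ ω) (r : ℕ) (x : ZMod ω) :
    d ∣ (r • x).val ↔ d ∣ r * x.val := by
  haveI : NeZero ω := ⟨hω.ne'⟩
  have h : (r • x).val = (r * x.val) % ω := by
    have h1 : r • x = ((r * x.val : ℕ) : ZMod ω) := by
      push_cast
      rw [ZMod.natCast_zmod_val, nsmul_eq_mul]
    rw [h1, ZMod.val_natCast]
  rw [h]
  exact (Nat.dvd_mod_iff hd)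

theorem smul_mem (hMem : TaskMem) (hω : 0 < ω) {R k : ℕ} (hR : 0 < R) (hk : R * k ∣ ω) (x : ZMod ω) :
    R • x ∈ M ω (R * k) ↔ x ∈ M ω k := by
  have hk' : k ∣ ω := dvd_trans (Dvd.intro_left R rfl) hk
  rw [hMem ω (R * k) hω hk, hMem ω k hω hk', val_smul_dvd hω hk]
  exact Nat.mul_dvd_mul_iff_left hR

theorem M_le (hMem : TaskMem) (hω : 0 < ω) {j k : ℕ} (hjk : j ∣ k) (hk : k ∣ ω) : M ω k ≤ M ω j := by
  intro x hx
  rw [hMem ω k hω hk] at hx
  rw [hMem ω j hω (dvd_trans hjk hk)]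
  exact dvd_trans hjk hx

theorem sub_modEq (hω : 0 < ω) {k : ℕ} (hk : k ∣ ω) (hMem : TaskMem) (x y : ZMod ω) :
    x - y ∈ M ω k ↔ x.val ≡ y.val [MOD k] := by
  haveI : NeZero ω := ⟨hω.ne'⟩
  rw [hMem ω k hω hk]
  have h1 : ((x - y + y).val) = x.val := by rw [sub_add_cancel]
  rw [ZMod.val_add] at h1
  have h2 : (x - y).val + y.val ≡ x.val [MOD k] := by
    have : (x - y).val + y.val ≡ x.val [MOD ω] := by
      rw [← h1]; exact (Nat.mod_modEq _ _).symm
    exact this.of_dvd hk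
  constructor
  · intro h
    have h3 : (x - y).val + y.val ≡ 0 + y.val [MOD k] :=
      Nat.ModEq.add_right _ ((Nat.modEq_zero_iff_dvd).2 h)
    rw [zero_add] at h3
    exact h2.symm.trans h3
  · intro h
    have h3 : (x - y).val + y.val ≡ 0 + y.val [MOD k] := by
      rw [zero_add]; exact h2.trans h
    exact (Nat.modEq_zero_iff_dvd).1 (Nat.ModEq.add_right_cancel' _ h3)

end

/-- the case `C ⊆ M (R p ^ a)` -/
theorem half (hInj : TaskInj) (hPrime : TaskPrime) (hCop : TaskCop) (hRes : TaskRes)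
    (hFib : TaskFib) (hMem : TaskMem) (hCard : TaskCard) (hUnit : TaskUnit) (hDiff : TaskDiff)
    (hAvg : TaskAvg) (hGcd1 : TaskGcd1) (hCore : TaskCore)
    (ω R p q a b u v : ℕ) (A C T : Finset (ZMod ω)) (hp : p.Prime) (hq : q.Prime) (hpq : p ≠ q)
    (hω : 0 < ω) (hf : ω = R * (p ^ u * q ^ v)) (ha : a ≤ u) (hb : b ≤ v)
    (hA : A.card = p ^ a * q ^ b) (h0 : 0 ∈ C) (hT : Til (M ω R) A C)
    (hC : ∀ c ∈ C, c ∈ M ω (R * p ^ a)) (hTA : T ⊆ A)
    (hTi : ∀ t ∈ T, ∀ t' ∈ T, t - t' ∈ M ω (R * (p ^ a * q ^ b)) → t = t')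
    (hTc : p ^ a * q ^ b < 2 * T.card) :
    ∀ x ∈ A, ∀ y ∈ A, x - y ∈ M ω (R * (p ^ a * q ^ b)) → x = y := by
  haveI : NeZero ω := ⟨hω.ne'⟩
  classical
  have hR : 0 < R := by
    rcases Nat.eq_zero_or_pos R with h | h
    · rw [h] at hf; omega
    · exact h
  have hpa : 0 < p ^ a := pow_pos hp.pos _
  have hqb : 0 < q ^ b := pow_pos hq.pos _
  have hs : ω = (R * p ^ u) * q ^ v := by rw [hf]; ring
  have hPu : p ^ (u - a) * p ^ a = p ^ u := by rw [← pow_add]; congr 1; omega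
  have hQv : q ^ (v - b) * q ^ b = q ^ v := by rw [← pow_add]; congr 1; omega
  have dK : R * p ^ a ∣ ω := ⟨p ^ (u - a) * q ^ v, by rw [hf, ← hPu]; ring⟩
  have dR : R ∣ ω := ⟨_, hf⟩
  have dS : R * p ^ u ∣ ω := ⟨_, hs⟩
  have dN : R * (p ^ a * q ^ b) ∣ ω := ⟨p ^ (u - a) * q ^ (v - b), by
    rw [hf, ← hPu, ← hQv]; ring⟩
  have dSq : R * p ^ u * q ^ b ∣ ω := ⟨q ^ (v - b), by rw [hs, ← hQv]; ring⟩
  have ePN : p ^ (u - a) * (R * (p ^ a * q ^ b)) = R * p ^ u * q ^ b := by rw [← hPu]; ring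
  have ePK : p ^ (u - a) * (R * p ^ a) = R * p ^ u := by rw [← hPu]; ring
  have hKH : M ω (R * p ^ a) ≤ M ω R := M_le hMem hω (Dvd.intro _ rfl) dK
  have hSK : M ω (R * p ^ u) ≤ M ω (R * p ^ a) :=
    M_le hMem hω (Nat.mul_dvd_mul_left R (pow_dvd_pow p ha)) dS
  have hNK : M ω (R * (p ^ a * q ^ b)) ≤ M ω (R * p ^ a) :=
    M_le hMem hω (Nat.mul_dvd_mul_left R (Dvd.intro _ rfl)) dN
  have cH : Nat.card (M ω R) = p ^ u * q ^ v := by
    rw [hCard ω R hω dR, hf, Nat.mul_div_cancel_left _ hR]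
  have cK : Nat.card (M ω (R * p ^ a)) = p ^ (u - a) * q ^ v := by
    rw [hCard ω _ hω dK, hf, ← hPu]
    rw [show R * (p ^ (u - a) * p ^ a * q ^ v) = (R * p ^ a) * (p ^ (u - a) * q ^ v) by ring]
    exact Nat.mul_div_cancel_left _ (by positivity)
  have cHK : Nat.card (M ω R) = p ^ a * Nat.card (M ω (R * p ^ a)) := by
    rw [cH, cK, ← hPu]; ring
  -- the fibres
  have key : ∀ x ∈ M ω R, ∀ A' : Finset (ZMod ω),
      (∀ y, y ∈ A' ↔ y + x ∈ A ∧ y ∈ M ω (R * p ^ a)) →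
      A'.card = q ^ b ∧ (A'.image (fun y => p ^ (u - a) • y)).card = A'.card ∧
      Til (M ω (R * p ^ u)) (A'.image (fun y => p ^ (u - a) • y))
        (C.filter (fun c => c ∈ M ω (R * p ^ u))) := by
    intro x hx A' hA'
    have h1 : Til (M ω (R * p ^ a)) A' C := hFib hInj (ZMod ω) _ _ A C A' x hT hKH hC hx hA'
    have hcard : A'.card = q ^ b := by
      have e1 := h1.2.2.2
      have e2 := hT.2.2.2
      rw [cHK, ← e1, hA] at e2
      have hCpos : 0 < C.card := Finset.card_pos.2 ⟨0, h0⟩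
      have : p ^ a * C.card * (q ^ b) = p ^ a * C.card * A'.card := by
        calc p ^ a * C.card * (q ^ b) = p ^ a * q ^ b * C.card := by ring
          _ = _ := e2
          _ = _ := by ring
      exact (Nat.eq_of_mul_eq_mul_left (by positivity) this).symm
    have hcop : (p ^ (u - a)).Coprime A'.card := by
      rw [hcard]
      exact Nat.Coprime.pow _ _ ((Nat.coprime_primes hp hq).2 hpq)
    have h2 := hCop hPrime hInj (ZMod ω) _ A' C (p ^ (u - a)) (pow_pos hp.pos _).ne' hcop h1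
    refine ⟨hcard, h2.2, ?_⟩
    refine hRes hInj (ZMod ω) _ _ _ C _ h2.1 hSK ?_ ?_
    · intro y hy
      rw [Finset.mem_image] at hy
      obtain ⟨z, hz, rfl⟩ := hy
      have hz' := ((hA' z).1 hz).2
      rw [← ePK]
      exact (smul_mem hMem hω (pow_pos hp.pos _) (by rw [ePK]; exact dS) z).2 hz'
    · intro c
      rw [Finset.mem_filter]
  -- a fibre with many classes
  obtain ⟨x₀, hx₀, T', hT'T, hT'K, hT'c⟩ := hAvg (ZMod ω) (M ω R) (M ω (R * p ^ a)) T (p ^ a) (q ^ b)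
    hKH cHK (fun t ht => hT.1 t (hTA ht)) hTc
  have hfull : ∀ x ∈ M ω (R * p ^ u * q ^ b), x ∈ C.filter (fun c => c ∈ M ω (R * p ^ u)) := by
    obtain ⟨k1, k2, k3⟩ := key x₀ hx₀
      ((Finset.univ : Finset (ZMod ω)).filter (fun y => y + x₀ ∈ A ∧ y ∈ M ω (R * p ^ a)))
      (by intro y; simp)
    set A' := (Finset.univ : Finset (ZMod ω)).filter (fun y => y + x₀ ∈ A ∧ y ∈ M ω (R * p ^ a))
      with hA'
    have hinj : ∀ t ∈ T', ∀ t' ∈ T',
        p ^ (u - a) • (t - x₀) - p ^ (u - a) • (t' - x₀) ∈ M ω (R * p ^ u * q ^ b) → t = t' := by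
      intro t ht t' ht' h
      rw [← smul_sub, sub_sub_sub_cancel_right, ← ePN] at h
      exact hTi t (hT'T ht) t' (hT'T ht')
        ((smul_mem hMem hω (pow_pos hp.pos _) (by rw [ePN]; exact dSq) _).1 h)
    refine hCore hInj hCop hPrime hMem hCard hUnit hDiff hGcd1 ω (R * p ^ u) q b v
      (A'.image (fun y => p ^ (u - a) • y)) _ (T'.image (fun t => p ^ (u - a) • (t - x₀)))
      hq hω hs hb (by rw [k2, k1]) ?_ k3 ?_ ?_ ?_
    · rw [Finset.mem_filter]; exact ⟨h0, zero_mem _⟩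
    · intro y hy
      rw [Finset.mem_image] at hy
      obtain ⟨t, ht, rfl⟩ := hy
      rw [Finset.mem_image]
      refine ⟨t - x₀, ?_, rfl⟩
      rw [hA', Finset.mem_filter]
      refine ⟨Finset.mem_univ _, ?_, hT'K t ht⟩
      rw [sub_add_cancel]; exact hTA (hT'T ht)
    · intro y hy y' hy' h
      rw [Finset.mem_image] at hy hy'
      obtain ⟨t, ht, rfl⟩ := hy
      obtain ⟨t', ht', rfl⟩ := hy'
      rw [hinj t ht t' ht' h]
    · rw [Finset.card_image_of_injOn]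
      · exact hT'c
      · intro t ht t' ht' h
        apply hinj t ht t' ht'
        simp only at h
        rw [h, sub_self]; exact zero_mem _
  -- conclusion
  intro x hx y hy hxy
  have hxH : y ∈ M ω R := hT.1 y hy
  obtain ⟨k1, k2, k3⟩ := key y hxH
    ((Finset.univ : Finset (ZMod ω)).filter (fun z => z + y ∈ A ∧ z ∈ M ω (R * p ^ a)))
    (by intro z; simp)
  set A' := (Finset.univ : Finset (ZMod ω)).filter (fun z => z + y ∈ A ∧ z ∈ M ω (R * p ^ a))
    with hA'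
  have m0 : (0 : ZMod ω) ∈ A' := by
    rw [hA', Finset.mem_filter]
    exact ⟨Finset.mem_univ _, by rw [zero_add]; exact hy, zero_mem _⟩
  have m1 : x - y ∈ A' := by
    rw [hA', Finset.mem_filter]
    exact ⟨Finset.mem_univ _, by rw [sub_add_cancel]; exact hx, hNK hxy⟩
  have mC : p ^ (u - a) • (x - y) ∈ C.filter (fun c => c ∈ M ω (R * p ^ u)) := by
    apply hfull
    rw [← ePN]
    exact (smul_mem hMem hω (pow_pos hp.pos _) (by rw [ePN]; exact dSq) _).2 hxy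
  have mz : (0 : ZMod ω) ∈ C.filter (fun c => c ∈ M ω (R * p ^ u)) := by
    rw [Finset.mem_filter]; exact ⟨h0, zero_mem _⟩
  have := hInj (ZMod ω) _ _ _ k3 (p ^ (u - a) • (0 : ZMod ω)) (Finset.mem_image_of_mem _ m0)
    (p ^ (u - a) • (x - y)) mC (p ^ (u - a) • (x - y)) (Finset.mem_image_of_mem _ m1) 0 mz
    (by rw [smul_zero, zero_add, add_zero])
  have hio := Finset.injOn_of_card_image_eq k2
  have h3 := hio (Finset.mem_coe.2 m0) (Finset.mem_coe.2 m1) this.1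
  exact (sub_eq_zero.1 h3.symm)

end Pool.Agent.Q248.DF
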