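import Mathlib

/-! MP_3e256f_co (direct factors of cyclic groups): the case of `n` with at most two prime factors. -/

namespace Pool.Agent.Q248.DF

open Finset

/-- `A ⊕ C = H` -/
def Til {G : Type} [AddCommGroup G] (H : AddSubgroup G) (A C : Finset G) : Prop :=
  (∀ a ∈ A, a ∈ H) ∧ (∀ c ∈ C, c ∈ H) ∧ (∀ h ∈ H, ∃ a ∈ A, ∃ c ∈ C, a + c = h) ∧
    A.card * C.card = Nat.card H

/-- the multiples of `k` in `ZMod ω` -/
def M (ω k : ℕ) : AddSubgroup (ZMod ω) := AddSubgroup.zmultiples (k : ZMod ω)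

/-- the sums are pairwise different: a surjection between finite sets of the same size -/
def TaskInj : Prop := ∀ (G : Type) [AddCommGroup G] [Fintype G] [DecidableEq G]
  (H : AddSubgroup G) (A C : Finset G), Til H A C →
  ∀ a ∈ A, ∀ c ∈ C, ∀ a' ∈ A, ∀ c' ∈ C, a + c = a' + c' → a = a' ∧ c = c'

/-- In `AddMonoidAlgebra (ZMod p) G`: `𝟙_A * 𝟙_C = 𝟙_H` (TaskInj), so `𝟙_A ^ p * 𝟙_C =
|A| ^ (p - 1) 𝟙_H = 𝟙_H`, and `𝟙_A ^ p = ∑ a ∈ A, single (p • a) 1` (`sum_pow_char`). So the number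
of `(a, c)` with `p • a + c = h` is `1` mod `p`, hence not `0`, for all `h ∈ H`. -/
def TaskPrime : Prop := TaskInj → ∀ (G : Type) [AddCommGroup G] [Fintype G] [DecidableEq G]
  (H : AddSubgroup G) (A C : Finset G) (p : ℕ), p.Prime → ¬ p ∣ A.card → Til H A C →
  Til H (A.image (fun a => p • a)) C ∧ (A.image (fun a => p • a)).card = A.card

/-- induction on the prime factors of `r` -/
def TaskCop : Prop := TaskPrime → TaskInj → ∀ (G : Type) [AddCommGroup G] [Fintype G] [DecidableEq G]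
  (H : AddSubgroup G) (A C : Finset G) (r : ℕ), r ≠ 0 → r.Coprime A.card → Til H A C →
  Til H (A.image (fun a => r • a)) C ∧ (A.image (fun a => r • a)).card = A.card

/-- restriction to a subgroup which contains `A` -/
def TaskRes : Prop := TaskInj → ∀ (G : Type) [AddCommGroup G] [Fintype G] [DecidableEq G]
  (H K : AddSubgroup G) (A C C' : Finset G), Til H A C → K ≤ H → (∀ a ∈ A, a ∈ K) →
  (∀ c, c ∈ C' ↔ c ∈ C ∧ c ∈ K) → Til K A C'

/-- the part of `A` in the coset `x + K` when `C ⊆ K` -/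
def TaskFib : Prop := TaskInj → ∀ (G : Type) [AddCommGroup G] [Fintype G] [DecidableEq G]
  (H K : AddSubgroup G) (A C A' : Finset G) (x : G), Til H A C → K ≤ H → (∀ c ∈ C, c ∈ K) →
  x ∈ H → (∀ a, a ∈ A' ↔ a + x ∈ A ∧ a ∈ K) → Til K A' C

/-- membership in `M` -/
def TaskMem : Prop := ∀ ω k : ℕ, 0 < ω → k ∣ ω → ∀ x : ZMod ω, x ∈ M ω k ↔ k ∣ x.val

/-- the size of `M` -/
def TaskCard : Prop := ∀ ω k : ℕ, 0 < ω → k ∣ ω → Nat.card (M ω k) = ω / k

/-- elements with the same gcd with `ω` differ by a unit -/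
def TaskUnit : Prop := ∀ (ω : ℕ), 0 < ω → ∀ x y : ZMod ω, Nat.gcd x.val ω = Nat.gcd y.val ω →
  ∃ r : ℕ, r ≠ 0 ∧ r.Coprime ω ∧ r • x = y

/-- more than half of the classes: the differences represent every class
(`T` and `T + y` cannot be disjoint mod `K`; `[H : K] = n`) -/
def TaskDiff : Prop := ∀ (G : Type) [AddCommGroup G] [Fintype G] [DecidableEq G]
  (H K : AddSubgroup G) (T : Finset G) (n : ℕ), K ≤ H → Nat.card H = n * Nat.card K →
  (∀ t ∈ T, t ∈ H) → (∀ t ∈ T, ∀ t' ∈ T, t - t' ∈ K → t = t') → n < 2 * T.card →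
  ∀ y ∈ H, ∃ t ∈ T, ∃ t' ∈ T, t - t' - y ∈ K

/-- averaging: some coset of `K` contains more than half of the classes mod `K'` -/
def TaskAvg : Prop := ∀ (G : Type) [AddCommGroup G] [Fintype G] [DecidableEq G]
  (H K : AddSubgroup G) (T : Finset G) (m k : ℕ), K ≤ H → Nat.card H = m * Nat.card K →
  (∀ t ∈ T, t ∈ H) → m * k < 2 * T.card →
  ∃ x ∈ H, ∃ T' ⊆ T, (∀ t ∈ T', t - x ∈ K) ∧ k < 2 * T'.card

/-- the gcd condition: `ω = R * ω₁`, `n = p ^ a * q ^ b`, all prime factors of `ω₁` are `p`, `q`,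
`x - y` a multiple of `R n`, `x, y` multiples of `R`, `y` neither a multiple of `R p ^ a` nor of `R q ^ b` -/
def TaskGcd : Prop := ∀ (ω R p q a b u v : ℕ), p.Prime → q.Prime → p ≠ q → 0 < ω →
  ω = R * (p ^ u * q ^ v) → a ≤ u → b ≤ v → ∀ x y : ℕ, R ∣ x → R ∣ y →
  x ≡ y [MOD R * (p ^ a * q ^ b)] → ¬ R * p ^ a ∣ y → ¬ R * q ^ b ∣ y →
  Nat.gcd x ω = Nat.gcd y ω

/-- the same for one prime -/
def TaskGcd1 : Prop := ∀ (ω s q b v : ℕ), q.Prime → 0 < ω → ω = s * q ^ v → b ≤ v →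
  ∀ x y : ℕ, s ∣ x → s ∣ y → x ≡ y [MOD s * q ^ b] → ¬ s * q ^ b ∣ y →
  Nat.gcd x ω = Nat.gcd y ω

/-- a set with `0` all whose differences lie in the union of two subgroups lies in one of them -/
def TaskUnion : Prop := ∀ (G : Type) [AddCommGroup G] (K L : AddSubgroup G) (C : Finset G),
  0 ∈ C → (∀ c ∈ C, ∀ c' ∈ C, c - c' ∈ K ∨ c - c' ∈ L) → (∀ c ∈ C, c ∈ K) ∨ (∀ c ∈ C, c ∈ L)

/-- the one-prime core -/
def TaskCore : Prop := TaskInj → TaskCop → TaskPrime → TaskMem → TaskCard → TaskUnit → TaskDiff →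
  TaskGcd1 → ∀ (ω s q b v : ℕ) (A C T : Finset (ZMod ω)), q.Prime → 0 < ω → ω = s * q ^ v → b ≤ v →
  A.card = q ^ b → 0 ∈ C → Til (M ω s) A C → T ⊆ A →
  (∀ t ∈ T, ∀ t' ∈ T, t - t' ∈ M ω (s * q ^ b) → t = t') → q ^ b < 2 * T.card →
  ∀ x ∈ M ω (s * q ^ b), x ∈ C

end Pool.Agent.Q248.DF
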