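import Pool.Agent.Q248.DF.Stmts

namespace Pool.Agent.Q248.DF

open Finset

theorem taskAvg : TaskAvg := by
  classical
  intro G _ _ _ H K T m k hKH hcard hT hmk
  by_contra hcon
  push Not at hcon
  have hle : ∀ x ∈ H, 2 * (T.filter (fun t => t - x ∈ K)).card ≤ k := by
    intro x hx
    exact hcon x hx _ (Finset.filter_subset _ _) (fun t ht => (Finset.mem_filter.mp ht).2)
  set Hs : Finset G := univ.filter (fun x => x ∈ H) with hHs
  set Ks : Finset G := univ.filter (fun x => x ∈ K) with hKs
  have hHc : Hs.card = Nat.card H := by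
    rw [Nat.card_eq_fintype_card, Fintype.card_subtype]
  have hKc : Ks.card = Nat.card K := by
    rw [Nat.card_eq_fintype_card, Fintype.card_subtype]
  have hdc : ∑ x ∈ Hs, (T.filter (fun t => t - x ∈ K)).card
      = ∑ t ∈ T, (Hs.filter (fun x => t - x ∈ K)).card := by
    simp only [Finset.card_filter]
    exact Finset.sum_comm
  have hfib : ∀ t ∈ T, (Hs.filter (fun x => t - x ∈ K)).card = Ks.card := by
    intro t ht
    refine Finset.card_nbij' (fun x => t - x) (fun y => t - y) ?_ ?_ ?_ ?_
    · intro x hx
      have := (Finset.mem_filter.mp hx).2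
      simp only [hKs, Finset.coe_filter, Finset.mem_univ, true_and, Set.mem_setOf_eq]
      exact this
    · intro y hy
      have hy' : y ∈ K := by
        have := Finset.mem_coe.mp hy
        rw [hKs, Finset.mem_filter] at this
        exact this.2
      simp only [hHs, Finset.coe_filter, Finset.mem_filter, Finset.mem_univ, true_and,
        Set.mem_setOf_eq]
      refine ⟨H.sub_mem (hT t ht) (hKH hy'), ?_⟩
      rw [sub_sub_cancel]; exact hy'
    · intro x _
      simp
    · intro y _
      simp
  have h1 : ∑ t ∈ T, (Hs.filter (fun x => t - x ∈ K)).card = T.card * Ks.card := by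
    rw [Finset.sum_congr rfl hfib, Finset.sum_const, smul_eq_mul]
  have h2 : ∑ x ∈ Hs, 2 * (T.filter (fun t => t - x ∈ K)).card ≤ Hs.card * k := by
    rw [← smul_eq_mul]
    apply Finset.sum_le_card_nsmul
    intro x hx
    exact hle x (Finset.mem_filter.mp hx).2
  rw [← Finset.mul_sum, hdc, h1, hHc, hcard, ← hKc] at h2
  have hKpos : 0 < Ks.card := by
    apply Finset.card_pos.mpr
    exact ⟨0, Finset.mem_filter.mpr ⟨Finset.mem_univ _, K.zero_mem⟩⟩
  have h3 : (2 * T.card) * Ks.card ≤ (m * k) * Ks.card := by nlinarith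
  have h4 := Nat.le_of_mul_le_mul_right h3 hKpos
  omega

end Pool.Agent.Q248.DF
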