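import Pool.Agent.Q248.DF.Stmts

namespace Pool.Agent.Q248.DF.TCard

theorem main : Pool.Agent.Q248.DF.TaskCard := by
  intro ω k hω hk
  unfold M
  rw [Nat.card_zmultiples, ZMod.addOrderOf_coe k hω.ne', Nat.gcd_eq_right hk]

end Pool.Agent.Q248.DF.TCard
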