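import Pool.Agent.Q248.DF.Stmts

namespace Pool.Agent.Q248.DF.TCop

open Finset

theorem main : Pool.Agent.Q248.DF.TaskCop := by
  intro hP hI G _ _ _ H A C r
  induction r using induction_on_primes with
  | zero => intro h; exact absurd rfl h
  | one =>
    intro _ _ hT
    have : A.image (fun a => (1 : ℕ) • a) = A := by simp
    rw [this]
    exact ⟨hT, rfl⟩
  | prime_mul p a hp ih =>
    intro h0 hc hT
    have ha0 : a ≠ 0 := by rintro rfl; simp at h0
    have hca : a.Coprime A.card := Nat.Coprime.coprime_mul_left hc
    have hcp : p.Coprime A.card := Nat.Coprime.coprime_mul_right hc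
    obtain ⟨h1, h2⟩ := ih ha0 hca hT
    have hnd : ¬ p ∣ (A.image (fun x => a • x)).card := by
      rw [h2]
      exact (Nat.Prime.coprime_iff_not_dvd hp).1 hcp
    obtain ⟨h3, h4⟩ := hP hI G H _ C p hp hnd h1
    have he : (A.image (fun x => a • x)).image (fun x => p • x) = A.image (fun x => (p * a) • x) := by
      rw [Finset.image_image]
      refine Finset.image_congr ?_
      intro x _
      simp [mul_smul]
    rw [he] at h3 h4
    exact ⟨h3, h4.trans h2⟩

end Pool.Agent.Q248.DF.TCop
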