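import Pool.Agent.Q248.DF.Stmts

/-! helper292: TaskCore of the blueprint DF (MP_3e256f_co). -/

namespace Pool.Agent.Q248.DF.TCore

open Pool.Agent.Q248.DF Finset

theorem main : Pool.Agent.Q248.DF.TaskCore := by
  intro hInj hCop hPrime hMem hCard hUnit hDiff hGcd1 ω s q b v A C T hq hω hωs hbv hA h0 hT hTA
    hTd hTc
  haveI : NeZero ω := ⟨by omega⟩
  have hs : 0 < s := by
    rcases Nat.eq_zero_or_pos s with h | h
    · subst h; simp at hωs; omega
    · exact h
  have hqp : 0 < q := hq.pos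
  have hsd : s ∣ ω := ⟨q ^ v, hωs⟩
  have hkd : s * q ^ b ∣ ω := by
    rw [hωs]; exact Nat.mul_dvd_mul_left s (pow_dvd_pow q hbv)
  have hH : Nat.card (M ω s) = q ^ v := by
    rw [hCard ω s hω hsd, hωs, Nat.mul_div_cancel_left _ hs]
  have hK : Nat.card (M ω (s * q ^ b)) = q ^ (v - b) := by
    rw [hCard ω _ hω hkd, hωs]
    have : s * q ^ v = s * q ^ b * q ^ (v - b) := by
      rw [mul_assoc, ← pow_add]; congr 2; omega
    rw [this, Nat.mul_div_cancel_left _ (by positivity)]
  have hKH : M ω (s * q ^ b) ≤ M ω s := by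
    intro x hx
    rw [hMem ω s hω hsd]
    rw [hMem ω _ hω hkd] at hx
    exact (Dvd.intro _ rfl).trans hx
  have hHK : Nat.card (M ω s) = q ^ b * Nat.card (M ω (s * q ^ b)) := by
    rw [hH, hK, ← pow_add]; congr 1; omega
  have hTH : ∀ t ∈ T, t ∈ M ω s := fun t ht => hT.1 t (hTA ht)
  -- C ⊆ K
  have hCK : ∀ c ∈ C, c ∈ M ω (s * q ^ b) := by
    intro c hc
    by_contra hcK
    obtain ⟨t, ht, t', ht', htt⟩ := hDiff (ZMod ω) (M ω s) (M ω (s * q ^ b)) T (q ^ b) hKH hHK hTH
      hTd hTc c (hT.2.1 c hc)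
    have hgcd : Nat.gcd (t - t').val ω = Nat.gcd c.val ω := by
      apply hGcd1 ω s q b v hq hω hωs hbv
      · rw [← hMem ω s hω hsd]
        exact (M ω s).sub_mem (hTH t ht) (hTH t' ht')
      · rw [← hMem ω s hω hsd]
        exact hT.2.1 c hc
      · have e1 : (t - t').val ≡ (t - t' - c).val + c.val [MOD ω] := by
          have : (t - t').val = ((t - t' - c).val + c.val) % ω := by
            rw [← ZMod.val_add]; congr 1; ring
          rw [this]; exact Nat.mod_modEq _ _
        have e2 := Nat.ModEq.of_dvd hkd e1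
        have e3 : (t - t' - c).val ≡ 0 [MOD s * q ^ b] :=
          (Nat.modEq_zero_iff_dvd).mpr ((hMem ω _ hω hkd _).mp htt)
        calc (t - t').val ≡ (t - t' - c).val + c.val [MOD s * q ^ b] := e2
          _ ≡ 0 + c.val [MOD s * q ^ b] := e3.add_right _
          _ = c.val := by simp
      · rw [← hMem ω _ hω hkd]; exact hcK
    obtain ⟨r, hr0, hrc, hr⟩ := hUnit ω hω _ _ hgcd
    have hrA : r.Coprime A.card := by
      rw [hA]
      rcases Nat.eq_zero_or_pos b with h | h
      · subst h; simp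
      · apply Nat.Coprime.coprime_dvd_right _ hrc
        exact (Dvd.intro_left _ rfl).trans hkd
    obtain ⟨h1, -⟩ := hCop hPrime hInj (ZMod ω) (M ω s) A C r hr0 hrA hT
    have h2 := hInj (ZMod ω) (M ω s) _ C h1 (r • t) (Finset.mem_image_of_mem _ (hTA ht)) 0 h0
      (r • t') (Finset.mem_image_of_mem _ (hTA ht')) c hc (by
        rw [add_zero, ← hr, smul_sub]; abel)
    apply hcK
    rw [← h2.2]
    exact (M ω (s * q ^ b)).zero_mem
  -- cardinality
  have hCc : C.card = q ^ (v - b) := by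
    have h := hT.2.2.2
    rw [hA, hH] at h
    have : q ^ v = q ^ b * q ^ (v - b) := by rw [← pow_add]; congr 1; omega
    rw [this] at h
    exact Nat.eq_of_mul_eq_mul_left (by positivity) h
  classical
  have hsub : (C : Set (ZMod ω)) ⊆ (M ω (s * q ^ b) : Set (ZMod ω)) := fun c hc => hCK c hc
  have heq : (C : Set (ZMod ω)) = (M ω (s * q ^ b) : Set (ZMod ω)) := by
    apply Set.eq_of_subset_of_ncard_le hsub _ (Set.toFinite _)
    rw [Set.ncard_coe_finset, hCc]
    have : (M ω (s * q ^ b) : Set (ZMod ω)).ncard = Nat.card (M ω (s * q ^ b)) := by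
      rw [← Nat.card_coe_set_eq]; rfl
    rw [this, hK]
  intro x hx
  have : x ∈ (C : Set (ZMod ω)) := by rw [heq]; exact hx
  exact this

end Pool.Agent.Q248.DF.TCore
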