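import Pool.Agent.Q248.DF.Stmts

set_option autoImplicit false

namespace Pool.Agent.Q248.DF.TDiff

open Finset Pool.Agent.Q248.DF

theorem main : Pool.Agent.Q248.DF.TaskDiff := by
  intro G _ _ _ H K T n hKH hcard hTH hT hn y hy
  by_contra hno
  push Not at hno
  let g : (T ⊕ T) × K → G := fun p =>
    Sum.elim (fun t : T => (t : G) + (p.2 : G)) (fun t : T => (t : G) + y + (p.2 : G)) p.1
  have hg : ∀ p, g p ∈ H := by
    rintro ⟨t | t, k⟩
    · exact H.add_mem (hTH t t.2) (hKH k.2)
    · exact H.add_mem (H.add_mem (hTH t t.2) hy) (hKH k.2)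
  let f : (T ⊕ T) × K → H := fun p => ⟨g p, hg p⟩
  have hf : Function.Injective f := by
    rintro ⟨t | t, k⟩ ⟨t' | t', k'⟩ h
    · have h1 : (t : G) + (k : G) = t' + k' := congrArg Subtype.val h
      have h2 : (t : G) - t' = k' - k := by
        rw [sub_eq_sub_iff_add_eq_add, h1]; abel
      have h3 : (t : G) = t' := hT t t.2 t' t'.2 (by rw [h2]; exact K.sub_mem k'.2 k.2)
      have h4 : (k : G) = k' := by rw [h3] at h1; exact add_left_cancel h1
      rw [Subtype.ext h3, Subtype.ext h4]
    · exfalso
      have h1 : (t : G) + (k : G) = t' + y + k' := congrArg Subtype.val h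
      refine hno t t.2 t' t'.2 ?_
      have h2 : (t : G) - t' - y = k' - k := by
        rw [sub_sub, sub_eq_sub_iff_add_eq_add, h1]; abel
      rw [h2]; exact K.sub_mem k'.2 k.2
    · exfalso
      have h1 : (t : G) + y + (k : G) = t' + k' := congrArg Subtype.val h
      refine hno t' t'.2 t t.2 ?_
      have h2 : (t' : G) - t - y = k - k' := by
        rw [sub_sub, sub_eq_sub_iff_add_eq_add, ← h1]; abel
      rw [h2]; exact K.sub_mem k.2 k'.2
    · have h1 : (t : G) + y + (k : G) = t' + y + k' := congrArg Subtype.val h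
      have h2 : (t : G) - t' = k' - k := by
        have h5 : (t : G) + k = t' + k' := by
          have : (t : G) + k + y = t' + k' + y := by
            calc (t : G) + k + y = t + y + k := by abel
              _ = t' + y + k' := h1
              _ = t' + k' + y := by abel
          exact add_right_cancel this
        rw [sub_eq_sub_iff_add_eq_add, h5]; abel
      have h3 : (t : G) = t' := hT t t.2 t' t'.2 (by rw [h2]; exact K.sub_mem k'.2 k.2)
      have h4 : (k : G) = k' := by rw [h3] at h1; exact add_left_cancel h1
      rw [Subtype.ext h3, Subtype.ext h4]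
  have h1 := Nat.card_le_card_of_injective f hf
  rw [Nat.card_prod, Nat.card_sum, hcard, Nat.card_eq_fintype_card, Fintype.card_coe] at h1
  have h2 : 0 < Nat.card K := Nat.card_pos
  have h3 := Nat.le_of_mul_le_mul_right h1 h2
  omega

end Pool.Agent.Q248.DF.TDiff
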