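import Mathlib
import Pool.Agent.Q248.DF.Stmts

namespace Pool.Agent.Q248.DF.TFib

open Finset Pool.Agent.Q248.DF

theorem main : Pool.Agent.Q248.DF.TaskFib := by
  intro hinj G _ _ _ H K A C A' x hT hKH hC hx hA'
  have hI := hinj G H A C hT
  obtain ⟨h1, h2, h3, h4⟩ := hT
  have hsurj : ∀ h ∈ K, ∃ a ∈ A', ∃ c ∈ C, a + c = h := by
    intro h hh
    obtain ⟨a0, ha0, c, hc, e⟩ := h3 (h + x) (H.add_mem (hKH hh) hx)
    have e1 : a0 - x = h - c := by
      rw [sub_eq_sub_iff_add_eq_add]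
      exact e
    refine ⟨a0 - x, ?_, c, hc, ?_⟩
    · rw [hA']
      refine ⟨by simpa using ha0, ?_⟩
      rw [e1]
      exact K.sub_mem hh (hC c hc)
    · rw [e1]
      abel
  refine ⟨fun a ha => ((hA' a).1 ha).2, hC, hsurj, ?_⟩
  have hset : (K : Set G) = ((A' ×ˢ C).image (fun p : G × G => p.1 + p.2) : Finset G) := by
    ext h
    constructor
    · intro hh
      obtain ⟨a, ha, c, hc, e⟩ := hsurj h hh
      rw [Finset.mem_coe, Finset.mem_image]
      exact ⟨(a, c), Finset.mem_product.2 ⟨ha, hc⟩, e⟩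
    · intro hh
      rw [Finset.mem_coe, Finset.mem_image] at hh
      obtain ⟨p, hp, e⟩ := hh
      rw [Finset.mem_product] at hp
      rw [← e]
      exact K.add_mem ((hA' _).1 hp.1).2 (hC _ hp.2)
  have hcard : Nat.card K = (K : Set G).ncard := Nat.card_coe_set_eq (K : Set G)
  rw [hcard, hset, Set.ncard_coe_finset, Finset.card_image_of_injOn, Finset.card_product]
  intro p hp p' hp' e
  rw [Finset.mem_coe, Finset.mem_product] at hp hp'
  simp only at e
  have h5 := hI (p.1 + x) ((hA' _).1 hp.1).1 p.2 hp.2 (p'.1 + x) ((hA' _).1 hp'.1).1 p'.2 hp'.2 (by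
    have e2 : p.1 + x + p.2 = (p.1 + p.2) + x := by abel
    have e3 : p'.1 + x + p'.2 = (p'.1 + p'.2) + x := by abel
    rw [e2, e3, e])
  exact Prod.ext (add_right_cancel h5.1) h5.2

end Pool.Agent.Q248.DF.TFib
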