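import Pool.Agent.Q248.DF.Stmts

namespace Pool.Agent.Q248.DF.TGcd

theorem aux (p a u x : ℕ) (hp : p.Prime) (hau : a ≤ u) (hx : ¬ p ^ a ∣ x) :
    Nat.gcd x (p ^ u) = Nat.gcd x (p ^ a) := by
  apply Nat.dvd_antisymm
  · obtain ⟨j, hj, hje⟩ := (Nat.dvd_prime_pow hp).1 (Nat.gcd_dvd_right x (p ^ u))
    have h1 : p ^ j ∣ x := hje ▸ Nat.gcd_dvd_left x (p ^ u)
    have h2 : j ≤ a := by
      by_contra h
      exact hx ((pow_dvd_pow p (by omega)).trans h1)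
    rw [hje]
    exact Nat.dvd_gcd h1 (pow_dvd_pow p h2)
  · exact Nat.dvd_gcd (Nat.gcd_dvd_left _ _) ((Nat.gcd_dvd_right _ _).trans (pow_dvd_pow p hau))

theorem aux2 (p a u x y : ℕ) (hp : p.Prime) (hau : a ≤ u) (hxy : x ≡ y [MOD p ^ a]) (hy : ¬ p ^ a ∣ y) :
    Nat.gcd x (p ^ u) = Nat.gcd y (p ^ u) := by
  have hx : ¬ p ^ a ∣ x := by
    intro h
    exact hy ((hxy.dvd_iff dvd_rfl).1 h)
  rw [aux p a u x hp hau hx, aux p a u y hp hau hy]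
  exact hxy.gcd_eq

theorem main : Pool.Agent.Q248.DF.TaskGcd := by
  intro ω R p q a b u v hp hq hpq hω hωe hau hbv x y hRx hRy hxy hy1 hy2
  obtain ⟨x', rfl⟩ := hRx
  obtain ⟨y', rfl⟩ := hRy
  have hR : R ≠ 0 := by
    rintro rfl
    simp at hωe
    omega
  have hR' : 0 < R := Nat.pos_of_ne_zero hR
  have hxy' : x' ≡ y' [MOD p ^ a * q ^ b] := Nat.ModEq.mul_left_cancel' hR hxy
  have h1 : ¬ p ^ a ∣ y' := fun h => hy1 (Nat.mul_dvd_mul_left R h)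
  have h2 : ¬ q ^ b ∣ y' := fun h => hy2 (Nat.mul_dvd_mul_left R h)
  have hc : Nat.Coprime (p ^ u) (q ^ v) := Nat.Coprime.pow u v ((Nat.coprime_primes hp hq).2 hpq)
  rw [hωe, Nat.gcd_mul_left, Nat.gcd_mul_left, Nat.Coprime.gcd_mul _ hc, Nat.Coprime.gcd_mul _ hc,
    aux2 p a u x' y' hp hau (hxy'.of_dvd (Dvd.intro _ rfl)) h1,
    aux2 q b v x' y' hq hbv (hxy'.of_dvd (Dvd.intro_left _ rfl)) h2]

end Pool.Agent.Q248.DF.TGcd
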