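import Pool.Agent.Q248.DF.Stmts

namespace Pool.Agent.Q248.DF.TaskGcd1

theorem main : Pool.Agent.Q248.DF.TaskGcd1 := by
  intro ω s q b v hq hω hωs hbv x y hx hy hxy hny
  obtain ⟨x', rfl⟩ := hx
  obtain ⟨y', rfl⟩ := hy
  have hs : s ≠ 0 := by
    rintro rfl
    simp at hωs
    omega
  have h1 : x' ≡ y' [MOD q ^ b] := Nat.ModEq.mul_left_cancel' hs hxy
  have h2 : ¬ q ^ b ∣ y' := fun h => hny (Nat.mul_dvd_mul_left s h)
  have h3 : ¬ q ^ b ∣ x' := fun h => h2 ((h1.dvd_iff dvd_rfl).mp h)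
  have key : ∀ z, ¬ q ^ b ∣ z → Nat.gcd z (q ^ v) = Nat.gcd z (q ^ b) := by
    intro z hz
    apply Nat.dvd_antisymm
    · obtain ⟨j, hj, hj'⟩ := (Nat.dvd_prime_pow hq).mp (Nat.gcd_dvd_right z (q ^ v))
      have hjb : j < b := by
        by_contra hcon
        apply hz
        have : q ^ b ∣ q ^ j := pow_dvd_pow q (by omega)
        rw [← hj'] at this
        exact this.trans (Nat.gcd_dvd_left _ _)
      refine Nat.dvd_gcd (Nat.gcd_dvd_left _ _) ?_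
      rw [hj']
      exact pow_dvd_pow q hjb.le
    · exact Nat.dvd_gcd (Nat.gcd_dvd_left _ _) ((Nat.gcd_dvd_right _ _).trans (pow_dvd_pow q hbv))
  rw [hωs, Nat.gcd_mul_left, Nat.gcd_mul_left, key x' h3, key y' h2, h1.gcd_eq]

end Pool.Agent.Q248.DF.TaskGcd1
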