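import Pool.Agent.Q248.DF.Stmts

set_option autoImplicit false

namespace Pool.Agent.Q248.DF.TInj

open Finset

theorem main : Pool.Agent.Q248.DF.TaskInj := by
  classical
  intro G _ _ _ H A C hT a ha c hc a' ha' c' hc' heq
  obtain ⟨hA, hC, hH, hcard⟩ := hT
  have himg : (A ×ˢ C).image (fun x : G × G => x.1 + x.2) = univ.filter (fun x => x ∈ H) := by
    ext x
    simp only [mem_image, mem_product, Prod.exists, mem_filter, mem_univ, true_and]
    constructor
    · rintro ⟨u, v, ⟨hu, hv⟩, rfl⟩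
      exact H.add_mem (hA u hu) (hC v hv)
    · intro hx
      obtain ⟨u, hu, v, hv, rfl⟩ := hH x hx
      exact ⟨u, v, ⟨hu, hv⟩, rfl⟩
  have hcH : (univ.filter (fun x => x ∈ H)).card = Nat.card H := by
    rw [Nat.card_eq_fintype_card, Fintype.card_subtype]
  have hinj : Set.InjOn (fun x : G × G => x.1 + x.2) (A ×ˢ C : Finset (G × G)) := by
    rw [← Finset.card_image_iff, himg, hcH, card_product, hcard]
  have m1 : (a, c) ∈ ((A ×ˢ C : Finset (G × G)) : Set (G × G)) := by
    rw [mem_coe, mem_product]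
    exact ⟨ha, hc⟩
  have m2 : (a', c') ∈ ((A ×ˢ C : Finset (G × G)) : Set (G × G)) := by
    rw [mem_coe, mem_product]
    exact ⟨ha', hc'⟩
  have h := hinj m1 m2 heq
  exact ⟨congrArg Prod.fst h, congrArg Prod.snd h⟩

end Pool.Agent.Q248.DF.TInj
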