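import Pool.Agent.Q248.DF.Stmts

set_option autoImplicit false

namespace Pool.Agent.Q248.DF.TaskMem

open Pool.Agent.Q248.DF

theorem main : Pool.Agent.Q248.DF.TaskMem := by
  intro ω k hω hk x
  haveI : NeZero ω := ⟨hω.ne'⟩
  have h1 : k ∣ x.val ↔ (ZMod.castHom hk (ZMod k)) x = 0 := by
    rw [ZMod.castHom_apply, ← ZMod.natCast_val, ZMod.natCast_eq_zero_iff]
  unfold M
  rw [h1, AddSubgroup.mem_zmultiples_iff]
  constructor
  · rintro ⟨z, rfl⟩
    rw [map_zsmul, map_natCast, ZMod.natCast_self, smul_zero]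
  · intro h
    obtain ⟨c, hc⟩ := h1.2 h
    refine ⟨c, ?_⟩
    have h2 : x = ((x.val : ℕ) : ZMod ω) := (ZMod.natCast_zmod_val x).symm
    rw [h2, hc]
    push_cast
    rw [zsmul_eq_mul]
    push_cast
    ring

end Pool.Agent.Q248.DF.TaskMem
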