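import Pool.Agent.Q248.DF.Stmts

namespace Pool.Agent.Q248.DF.TPrime

open Finset
open AddMonoidAlgebra (single)

private noncomputable def ind (p : ℕ) {G : Type} [AddCommGroup G] (S : Finset G) : AddMonoidAlgebra (ZMod p) G :=
  ∑ x ∈ S, single x 1

private theorem ind_coeff (p : ℕ) {G : Type} [AddCommGroup G] [DecidableEq G] {ι : Type}
    (S : Finset ι) (f : ι → G) (h : G) :
    (∑ x ∈ S, (single (f x) 1 : AddMonoidAlgebra (ZMod p) G)).coeff h =
      ((S.filter (fun x => f x = h)).card : ZMod p) := by
  rw [AddMonoidAlgebra.coeff_sum, Finsupp.finsetSum_apply, Finset.card_filter, Nat.cast_sum]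
  refine Finset.sum_congr rfl fun x _ => ?_
  rw [AddMonoidAlgebra.coeff_single, Finsupp.single_apply]
  split <;> simp

private theorem charp (p : ℕ) [Fact p.Prime] {G : Type} [AddCommGroup G] :
    CharP (AddMonoidAlgebra (ZMod p) G) p := by
  apply charP_of_injective_ringHom (f := (AddMonoidAlgebra.singleZeroRingHom :
    ZMod p →+* AddMonoidAlgebra (ZMod p) G))
  exact RingHom.injective _

theorem main : Pool.Agent.Q248.DF.TaskPrime := by
  intro hInj G _ _ _ H A C p hp hpA hT
  have : Fact p.Prime := ⟨hp⟩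
  have := charp p (G := G)
  obtain ⟨hA, hC, hsur, hcard⟩ := id hT
  classical
  set Hs : Finset G := Finset.univ.filter (fun x => x ∈ H) with hHs
  have hmem : ∀ x, x ∈ Hs ↔ x ∈ H := fun x => by simp [hHs]
  have hHcard : Hs.card = Nat.card H := by
    rw [Nat.card_eq_fintype_card, ← Fintype.card_coe]
    apply Fintype.card_congr
    exact Equiv.subtypeEquivRight hmem
  -- A * C = H
  have e1 : ind p A * ind p C = ind p Hs := by
    unfold ind
    rw [Finset.sum_mul_sum, ← Finset.sum_product']
    refine Finset.sum_bij (fun x _ => x.1 + x.2) ?_ ?_ ?_ ?_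
    · intro x hx
      rw [Finset.mem_product] at hx
      rw [hmem]
      exact H.add_mem (hA _ hx.1) (hC _ hx.2)
    · intro x hx y hy hxy
      rw [Finset.mem_product] at hx hy
      have := hInj G H A C hT x.1 hx.1 x.2 hx.2 y.1 hy.1 y.2 hy.2 hxy
      exact Prod.ext this.1 this.2
    · intro h hh
      obtain ⟨a, ha, c, hc, hac⟩ := hsur h ((hmem h).1 hh)
      exact ⟨(a, c), Finset.mem_product.2 ⟨ha, hc⟩, hac⟩
    · intro x _
      rw [AddMonoidAlgebra.single_mul_single, mul_one]
  -- A * H = |A| H
  have e2 : ind p A * ind p Hs = (A.card : AddMonoidAlgebra (ZMod p) G) * ind p Hs := by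
    have h1 : ∀ a ∈ A, ∑ h ∈ Hs, (single a 1 * single h 1 : AddMonoidAlgebra (ZMod p) G) =
        ind p Hs := by
      intro a ha
      unfold ind
      refine Finset.sum_bij (fun x _ => a + x) ?_ ?_ ?_ ?_
      · intro x hx
        rw [hmem] at *
        exact H.add_mem (hA _ ha) hx
      · intro x _ y _ hxy
        exact add_left_cancel hxy
      · intro h hh
        refine ⟨-a + h, ?_, by simp⟩
        rw [hmem] at *
        exact H.add_mem (H.neg_mem (hA _ ha)) hh
      · intro x _
        rw [AddMonoidAlgebra.single_mul_single, mul_one]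
    calc ind p A * ind p Hs = ∑ a ∈ A, ∑ h ∈ Hs, (single a 1 * single h 1) := by
          unfold ind
          rw [Finset.sum_mul_sum]
      _ = ∑ a ∈ A, ind p Hs := Finset.sum_congr rfl h1
      _ = (A.card : AddMonoidAlgebra (ZMod p) G) * ind p Hs := by
          rw [Finset.sum_const, nsmul_eq_mul]
  have e3 : ∀ n : ℕ, ind p A ^ n * ind p Hs =
      (A.card : AddMonoidAlgebra (ZMod p) G) ^ n * ind p Hs := by
    intro n
    induction n with
    | zero => simp
    | succ n ih => rw [pow_succ, mul_assoc, e2, mul_left_comm, ih, pow_succ]; ring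
  have e4 : (A.card : AddMonoidAlgebra (ZMod p) G) ^ (p - 1) = 1 := by
    have h1 : ((A.card : ZMod p)) ^ (p - 1) = 1 := by
      apply ZMod.pow_card_sub_one_eq_one
      rwa [Ne, ZMod.natCast_eq_zero_iff]
    have h2 := congrArg (AddMonoidAlgebra.singleZeroRingHom :
      ZMod p →+* AddMonoidAlgebra (ZMod p) G) h1
    rwa [map_pow, map_natCast, map_one] at h2
  have e5 : ind p A ^ p * ind p C = ind p Hs := by
    have : p = (p - 1) + 1 := by have := hp.one_lt; omega
    calc ind p A ^ p * ind p C = ind p A ^ (p - 1 + 1) * ind p C := by rw [← this]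
      _ = ind p A ^ (p - 1) * (ind p A * ind p C) := by rw [pow_succ, mul_assoc]
      _ = ind p Hs := by rw [e1, e3, e4, one_mul]
  have e6 : ind p A ^ p = ∑ a ∈ A, (single (p • a) 1 : AddMonoidAlgebra (ZMod p) G) := by
    unfold ind
    rw [sum_pow_char]
    refine Finset.sum_congr rfl fun a _ => ?_
    rw [AddMonoidAlgebra.single_pow, one_pow]
  have e7 : ∑ x ∈ A ×ˢ C, (single (p • x.1 + x.2) 1 : AddMonoidAlgebra (ZMod p) G) =
      ∑ x ∈ Hs, single x 1 := by
    have h1 : ind p A ^ p * ind p C =
        ∑ x ∈ A ×ˢ C, (single (p • x.1 + x.2) 1 : AddMonoidAlgebra (ZMod p) G) := by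
      rw [e6]
      unfold ind
      rw [Finset.sum_mul_sum, ← Finset.sum_product']
      refine Finset.sum_congr rfl fun x _ => ?_
      rw [AddMonoidAlgebra.single_mul_single, mul_one]
    rw [← h1, e5]
    rfl
  have hsur' : ∀ h ∈ H, ∃ a ∈ A.image (fun a => p • a), ∃ c ∈ C, a + c = h := by
    intro h hh
    have h1 := congrArg (fun z => z.coeff h) e7
    simp only [ind_coeff] at h1
    have h2 : (Hs.filter (fun x => x = h)) = {h} := by
      ext x
      simp only [Finset.mem_filter, Finset.mem_singleton]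
      constructor
      · exact fun hx => hx.2
      · rintro rfl
        exact ⟨(hmem x).2 hh, rfl⟩
    rw [h2, Finset.card_singleton, Nat.cast_one] at h1
    by_contra hne
    have h3 : (A ×ˢ C).filter (fun x => p • x.1 + x.2 = h) = ∅ := by
      rw [Finset.filter_eq_empty_iff]
      intro x hx hxh
      rw [Finset.mem_product] at hx
      exact hne ⟨p • x.1, Finset.mem_image_of_mem _ hx.1, x.2, hx.2, hxh⟩
    rw [h3, Finset.card_empty, Nat.cast_zero] at h1
    exact zero_ne_one h1
  have hle : (A.image (fun a => p • a)).card ≤ A.card := Finset.card_image_le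
  have hge : Hs.card ≤ (A.image (fun a => p • a)).card * C.card := by
    rw [← Finset.card_product]
    have : Hs ⊆ ((A.image (fun a => p • a)) ×ˢ C).image (fun x => x.1 + x.2) := by
      intro h hh
      obtain ⟨a, ha, c, hc, hac⟩ := hsur' h ((hmem h).1 hh)
      exact Finset.mem_image.2 ⟨(a, c), Finset.mem_product.2 ⟨ha, hc⟩, hac⟩
    exact (Finset.card_le_card this).trans Finset.card_image_le
  have hCpos : 0 < C.card := by
    obtain ⟨a, _, c, hc, _⟩ := hsur 0 H.zero_mem
    exact Finset.card_pos.2 ⟨c, hc⟩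
  have hcards : (A.image (fun a => p • a)).card = A.card := by
    apply le_antisymm hle
    rw [hHcard, ← hcard] at hge
    exact Nat.le_of_mul_le_mul_right hge hCpos
  refine ⟨⟨?_, hC, hsur', by rw [hcards, hcard]⟩, hcards⟩
  intro a' ha'
  obtain ⟨a, ha, rfl⟩ := Finset.mem_image.1 ha'
  exact H.nsmul_mem (hA a ha) p

end Pool.Agent.Q248.DF.TPrime
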