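import Pool.Agent.Q248.DF.Stmts

namespace Pool.Agent.Q248.DF.TRes

open Pool.Agent.Q248.DF

theorem main : Pool.Agent.Q248.DF.TaskRes := by
  intro hInj G _ _ _ H K A C C' hT hKH hAK hC'
  obtain ⟨hAH, hCH, hsur, hcard⟩ := id hT
  have hs : ∀ h ∈ K, ∃ a ∈ A, ∃ c ∈ C', a + c = h := by
    intro h hh
    obtain ⟨a, ha, c, hc, hac⟩ := hsur h (hKH hh)
    refine ⟨a, ha, c, (hC' c).2 ⟨hc, ?_⟩, hac⟩
    have h1 := K.sub_mem hh (hAK a ha)
    rw [← hac, add_sub_cancel_left] at h1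
    exact h1
  refine ⟨hAK, fun c hc => ((hC' c).1 hc).2, hs, ?_⟩
  let f : ↥(A ×ˢ C') → K := fun q => ⟨q.1.1 + q.1.2,
    K.add_mem (hAK _ (Finset.mem_product.1 q.2).1) ((hC' _).1 (Finset.mem_product.1 q.2).2).2⟩
  have hf : Function.Bijective f := by
    constructor
    · intro q q' h
      have h1 : q.1.1 + q.1.2 = q'.1.1 + q'.1.2 := congrArg Subtype.val h
      have h2 := hInj G H A C hT _ (Finset.mem_product.1 q.2).1 _
        ((hC' _).1 (Finset.mem_product.1 q.2).2).1 _ (Finset.mem_product.1 q'.2).1 _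
        ((hC' _).1 (Finset.mem_product.1 q'.2).2).1 h1
      exact Subtype.ext (Prod.ext h2.1 h2.2)
    · rintro ⟨h, hh⟩
      obtain ⟨a, ha, c, hc, hac⟩ := hs h hh
      exact ⟨⟨(a, c), Finset.mem_product.2 ⟨ha, hc⟩⟩, Subtype.ext hac⟩
  have h2 := Nat.card_eq_of_bijective f hf
  rw [← h2, Nat.card_eq_fintype_card, Fintype.card_coe, Finset.card_product]

end Pool.Agent.Q248.DF.TRes
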