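import Pool.Agent.Q248.DF.Stmts

namespace Pool.Agent.Q248.DF.TUnion

theorem main : Pool.Agent.Q248.DF.TaskUnion := by
  intro G _ K L C h0 h
  by_contra hcon
  push Not at hcon
  obtain ⟨⟨c, hc, hcK⟩, ⟨d, hd, hdL⟩⟩ := hcon
  have hcL : c ∈ L := by
    rcases h c hc 0 h0 with h1 | h1
    · rw [sub_zero] at h1
      exact absurd h1 hcK
    · rwa [sub_zero] at h1
  have hdK : d ∈ K := by
    rcases h d hd 0 h0 with h1 | h1
    · rwa [sub_zero] at h1
    · rw [sub_zero] at h1
      exact absurd h1 hdL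
  rcases h c hc d hd with h1 | h1
  · apply hcK
    have := K.add_mem h1 hdK
    rwa [sub_add_cancel] at this
  · apply hdL
    have := L.sub_mem hcL h1
    rwa [sub_sub_cancel] at this

end Pool.Agent.Q248.DF.TUnion
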