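import Pool.Agent.Q248.DF.Stmts

set_option autoImplicit false

namespace Pool.Agent.Q248.DF.TUnit

open Finset
open Pool.Agent.Q248.DF

theorem main : Pool.Agent.Q248.DF.TaskUnit := by
  intro ω hω x y hg
  haveI : NeZero ω := ⟨hω.ne'⟩
  set g := Nat.gcd x.val ω with hgdef
  have hg0 : 0 < g := Nat.gcd_pos_of_pos_right _ hω
  have hgx : g ∣ x.val := Nat.gcd_dvd_left _ _
  have hgω : g ∣ ω := Nat.gcd_dvd_right _ _
  have hgy : g ∣ y.val := by rw [hg]; exact Nat.gcd_dvd_left _ _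
  have hcx : Nat.Coprime (x.val / g) (ω / g) := Nat.coprime_div_gcd_div_gcd hg0
  have hcy : Nat.Coprime (y.val / g) (ω / g) := by
    rw [hg]
    exact Nat.coprime_div_gcd_div_gcd (by rw [← hg]; exact hg0)
  have hdvd : ω / g ∣ ω := Nat.div_dvd_of_dvd hgω
  obtain ⟨R, hR⟩ := ZMod.unitsMap_surjective hdvd
    (ZMod.unitOfCoprime (y.val / g) hcy * (ZMod.unitOfCoprime (x.val / g) hcx)⁻¹)
  have hRU : (((R : ZMod ω).val : ℕ) : ZMod (ω / g)) * ((x.val / g : ℕ) : ZMod (ω / g)) =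
      ((y.val / g : ℕ) : ZMod (ω / g)) := by
    have h1 : (((R : ZMod ω).val : ℕ) : ZMod (ω / g)) =
        ((ZMod.unitOfCoprime (y.val / g) hcy * (ZMod.unitOfCoprime (x.val / g) hcx)⁻¹ :
          (ZMod (ω / g))ˣ) : ZMod (ω / g)) := by
      rw [← hR, ZMod.unitsMap_val, ZMod.natCast_val]
    have h2 : ((x.val / g : ℕ) : ZMod (ω / g)) =
        ((ZMod.unitOfCoprime (x.val / g) hcx : (ZMod (ω / g))ˣ) : ZMod (ω / g)) :=
      (ZMod.coe_unitOfCoprime _ _).symm
    have h3 : ((y.val / g : ℕ) : ZMod (ω / g)) =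
        ((ZMod.unitOfCoprime (y.val / g) hcy : (ZMod (ω / g))ˣ) : ZMod (ω / g)) :=
      (ZMod.coe_unitOfCoprime _ _).symm
    rw [h1, h2, h3, ← Units.val_mul, inv_mul_cancel_right]
  refine ⟨(R : ZMod ω).val + ω, by omega, ?_, ?_⟩
  · have := ZMod.val_coe_unit_coprime R
    simpa using this
  · have h4 : (((R : ZMod ω).val * (x.val / g) : ℕ) : ZMod (ω / g)) =
        ((y.val / g : ℕ) : ZMod (ω / g)) := by
      push_cast
      exact hRU
    have h5 := (ZMod.natCast_eq_natCast_iff _ _ _).1 h4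
    have h6 := Nat.ModEq.mul_left' g h5
    rw [Nat.mul_div_cancel' hgω, Nat.mul_div_cancel' hgy,
      show g * ((R : ZMod ω).val * (x.val / g)) = (R : ZMod ω).val * (g * (x.val / g)) by ring,
      Nat.mul_div_cancel' hgx] at h6
    have h7 := (ZMod.natCast_eq_natCast_iff _ _ _).2 h6
    rw [nsmul_eq_mul]
    push_cast at h7 ⊢
    rw [ZMod.natCast_self, add_zero]
    simpa using h7

end Pool.Agent.Q248.DF.TUnit
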